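import Pool.Agent.Helper60.Alg.Gam
import Pool.Agent.Helper60.Geo.HL

/-! The field with 25 elements and coordinates on `F⟦X⟧/X^m`. -/

set_option autoImplicit false

namespace Pool.Agent.Helper60.Alg

open Geo AS

theorem exists_tr_equiv (F : Type*) [Field F] (m : ℕ) :
    ∃ E : Tr F m ≃ₗ[F] (Fin m → F), ∀ (f : PowerSeries F) (i : Fin m),
      E (Ideal.Quotient.mk _ f) i = PowerSeries.coeff (i : ℕ) f := by
  let I : Ideal (PowerSeries F) := Ideal.span {(PowerSeries.X : PowerSeries F) ^ m}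
  let ψ : PowerSeries F →ₗ[F] (Fin m → F) := LinearMap.pi fun i => PowerSeries.coeff (i : ℕ)
  have hker : I.restrictScalars F = LinearMap.ker ψ := by
    ext f
    rw [Submodule.restrictScalars_mem, LinearMap.mem_ker]
    show f ∈ Ideal.span {(PowerSeries.X : PowerSeries F) ^ m} ↔ _
    rw [Ideal.mem_span_singleton, PowerSeries.X_pow_dvd_iff]
    constructor
    · intro h
      funext i
      exact h i i.2
    · intro h i hi
      exact congrFun h ⟨i, hi⟩
  have hsurj : Function.Surjective ψ := by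
    intro v
    refine ⟨PowerSeries.mk (fun n => if h : n < m then v ⟨n, h⟩ else 0), ?_⟩
    funext i
    show PowerSeries.coeff (i : ℕ) (PowerSeries.mk (fun n => if h : n < m then v ⟨n, h⟩ else 0)) = v i
    rw [PowerSeries.coeff_mk, dif_pos i.2]
  let E : Tr F m ≃ₗ[F] (Fin m → F) :=
    (Submodule.Quotient.restrictScalarsEquiv F I).symm.trans
      ((Submodule.quotEquivOfEq _ _ hker).trans (ψ.quotKerEquivOfSurjective hsurj))
  exact ⟨E, fun f i => rfl⟩

theorem Mt_mulVec (F : Type*) [Field F] (om : Fˣ) (m : ℕ) (v : Fin m → F) (i : Fin m) :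
    (Mt F om m).mulVec v i = om * v i +
      (if h : 0 < (i : ℕ) then v ⟨(i : ℕ) - 1, by omega⟩ else 0) := by
  have h1 : ∀ j : Fin m, Mt F om m i j * v j =
      (if i = j then (om : F) * v j else 0) + (if (i : ℕ) = (j : ℕ) + 1 then v j else 0) := by
    intro j
    unfold Mt
    by_cases h : i = j
    · subst h
      simp
    · simp [h]
  show ∑ j, Mt F om m i j * v j = _
  rw [Finset.sum_congr rfl fun j _ => h1 j, Finset.sum_add_distrib, Finset.sum_ite_eq,
    if_pos (Finset.mem_univ _)]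
  congr 1
  by_cases h : 0 < (i : ℕ)
  · rw [dif_pos h, Finset.sum_eq_single ⟨(i : ℕ) - 1, by omega⟩]
    · rw [if_pos]
      show (i : ℕ) = (i : ℕ) - 1 + 1
      omega
    · intro j _ hj
      rw [if_neg]
      intro h2
      apply hj
      ext
      show (j : ℕ) = (i : ℕ) - 1
      omega
    · intro h2
      exact absurd (Finset.mem_univ _) h2
  · rw [dif_neg h]
    refine Finset.sum_eq_zero fun j _ => if_neg ?_
    omega

/-- coordinates in which `t = ω + X` acts by `Mt` -/
theorem exists_coord {F : Type*} [Field F] (om : Fˣ) (m : ℕ)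
    (ρ : Multiplicative ℤ →* Matrix (Fin 1) (Fin 1) (PowerSeries F))
    (hρ : ρ = repR (MonoidHom.id _) (1 : Multiplicative ℤ →* Matrix (Fin 1) (Fin 1) F) om) :
    ∃ φ : (Fin 1 → Tr F m) ≃ₗ[F] (Fin m → F), ∀ v : Fin 1 → Tr F m,
      φ (matAct (Tr F m) (ρ (Multiplicative.ofAdd 1)) v) = (Mt F om m).mulVec (φ v) := by
  obtain ⟨E, hE⟩ := exists_tr_equiv F m
  refine ⟨(LinearEquiv.funUnique (Fin 1) F (Tr F m)).trans E, fun v => ?_⟩
  have h0 : ρ (Multiplicative.ofAdd 1) 0 0 = PowerSeries.C (om : F) + PowerSeries.X := by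
    rw [hρ]
    show ((((tU om) ^ (1 : ℤ) : (PowerSeries F)ˣ) : PowerSeries F) •
      ((1 : Matrix (Fin 1) (Fin 1) F)).map PowerSeries.C) 0 0 = _
    rw [zpow_one, Matrix.smul_apply, Matrix.map_apply, Matrix.one_apply_eq, map_one, smul_eq_mul,
      mul_one]
    rfl
  have h1 : matAct (Tr F m) (ρ (Multiplicative.ofAdd 1)) v 0 =
      (PowerSeries.C (om : F) + PowerSeries.X) • v 0 := by
    show ∑ j, ρ (Multiplicative.ofAdd 1) 0 j • v j = _
    rw [Fin.sum_univ_one, h0]
  obtain ⟨f, hf⟩ := Ideal.Quotient.mk_surjective (v 0)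
  have h2 : (PowerSeries.C (om : F) + PowerSeries.X) • v 0 =
      Ideal.Quotient.mk (Ideal.span {(PowerSeries.X : PowerSeries F) ^ m})
        ((PowerSeries.C (om : F) + PowerSeries.X) * f) := by
    rw [← hf]; rfl
  funext i
  rw [Mt_mulVec]
  show E (matAct (Tr F m) (ρ (Multiplicative.ofAdd 1)) v 0) i = om * E (v 0) i + _
  have h3 : ∀ j, ((LinearEquiv.funUnique (Fin 1) F (Tr F m)).trans E) v j =
      PowerSeries.coeff (j : ℕ) f := by
    intro j
    show E (v 0) j = _
    rw [← hf, hE]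
  rw [h1, h2, hE, ← hf, hE, add_mul, map_add, PowerSeries.coeff_C_mul]
  congr 1
  by_cases h : 0 < (i : ℕ)
  · rw [dif_pos h, h3]
    have key : ∀ n : ℕ, 0 < n → PowerSeries.coeff n (PowerSeries.X * f) =
        PowerSeries.coeff (n - 1) f := by
      intro n hn
      obtain ⟨k, rfl⟩ : ∃ k, n = k + 1 := ⟨n - 1, by omega⟩
      rw [PowerSeries.coeff_succ_X_mul]
      rfl
    exact key _ h
  · rw [dif_neg h]
    have : (i : ℕ) = 0 := by omega
    rw [this, PowerSeries.coeff_zero_X_mul]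

/-- the field with 25 elements, its Frobenius and a primitive 6th root of unity -/
theorem exists_F25 : ∃ (F : Type) (_ : Field F) (_ : Finite F) (_ : Algebra (ZMod 5) F)
    (σ : F ≃ₐ[ZMod 5] F) (om : Fˣ), (∀ a, σ (σ a) = a) ∧ (om : F) ^ 2 - om + 1 = 0 ∧
      σ (om : F) = ((om⁻¹ : Fˣ) : F) := by
  have : Fact (Nat.Prime 5) := ⟨by norm_num⟩
  let F := GaloisField 5 2
  have hcard : Nat.card F = 25 := by
    rw [GaloisField.card 5 2 (by norm_num)]; norm_num
  have hfin : Finite F := Nat.finite_of_card_ne_zero (by rw [hcard]; norm_num)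
  have := Fintype.ofFinite F
  have hcard' : Fintype.card F = 25 := by rw [← Nat.card_eq_fintype_card, hcard]
  let σ : F ≃ₐ[ZMod 5] F := FiniteField.frobeniusAlgEquivOfAlgebraic (ZMod 5) F
  have hσ : ∀ a, σ a = a ^ 5 := by
    intro a
    have : σ a = a ^ Fintype.card (ZMod 5) := rfl
    rw [this, ZMod.card]
  have h25 : ∀ a : F, a ^ 25 = a := by
    intro a
    rw [← hcard']
    exact FiniteField.pow_card a
  obtain ⟨g, hg⟩ := IsCyclic.exists_ofOrder_eq_natCard (α := Fˣ)
  have hcu : Nat.card Fˣ = 24 := by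
    rw [Nat.card_units, hcard]
  rw [hcu] at hg
  have ho : orderOf (g ^ 4) = 6 := by
    rw [orderOf_pow_of_dvd (by norm_num) (by rw [hg]; norm_num), hg]
  obtain ⟨om, hom⟩ : ∃ om, om = g ^ 4 := ⟨_, rfl⟩
  rw [← hom] at ho
  have h6 : om ^ 6 = 1 := by rw [← ho]; exact pow_orderOf_eq_one om
  have h3 : (om : F) ^ 3 ≠ 1 := by
    intro h
    have h' : om ^ 3 = 1 := Units.ext (by rw [Units.val_pow_eq_pow_val, h, Units.val_one])
    have := orderOf_dvd_of_pow_eq_one h'
    rw [ho] at this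
    norm_num at this
  have h2 : (om : F) ^ 2 ≠ 1 := by
    intro h
    have h' : om ^ 2 = 1 := Units.ext (by rw [Units.val_pow_eq_pow_val, h, Units.val_one])
    have := orderOf_dvd_of_pow_eq_one h'
    rw [ho] at this
    norm_num at this
  have h6' : (om : F) ^ 6 = 1 := by rw [← Units.val_pow_eq_pow_val, h6, Units.val_one]
  have h3' : (om : F) ^ 3 = -1 := by
    have : ((om : F) ^ 3 - 1) * ((om : F) ^ 3 + 1) = 0 := by linear_combination h6'
    rcases mul_eq_zero.1 this with h | h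
    · exact absurd (sub_eq_zero.1 h) h3
    · exact eq_neg_of_add_eq_zero_left h
  refine ⟨F, inferInstance, hfin, inferInstance, σ, om, ?_, ?_, ?_⟩
  · intro a
    rw [hσ, hσ, ← pow_mul]
    exact h25 a
  · have : ((om : F) + 1) * ((om : F) ^ 2 - om + 1) = 0 := by linear_combination h3'
    rcases mul_eq_zero.1 this with h | h
    · exfalso
      apply h2
      rw [eq_neg_of_add_eq_zero_left h]; norm_num
    · exact h
  · rw [hσ, Units.val_inv_eq_inv_val]
    refine eq_inv_of_mul_eq_one_left ?_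
    rw [← pow_succ]
    exact h6'

end Pool.Agent.Helper60.Alg
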