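import Mathlib

/-! The group `Γ = P ⋊ ℤ`, `P = L × W` a Heisenberg type group, and the computation of
`λ = U² (U W⁻¹)⁻⁶` for `U² = W³`. -/

set_option autoImplicit false

namespace Pool.Agent.Helper60.Alg

/-- data: abelian groups `L, W` with automorphisms and an equivariant biadditive map -/
structure HData (L W : Type*) [AddCommGroup L] [AddCommGroup W] where
  t : (AddMonoid.End L)ˣ
  s : (AddMonoid.End W)ˣ
  b : L →+ L →+ W
  hb : ∀ x y, b ((t : AddMonoid.End L) x) ((t : AddMonoid.End L) y) = (s : AddMonoid.End W) (b x y)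

variable {L W : Type*} [AddCommGroup L] [AddCommGroup W]

/-- powers of the automorphisms -/
def HData.tz (H : HData L W) (n : ℤ) : L →+ L := ((H.t ^ n : (AddMonoid.End L)ˣ) : AddMonoid.End L)
def HData.sz (H : HData L W) (n : ℤ) : W →+ W := ((H.s ^ n : (AddMonoid.End W)ˣ) : AddMonoid.End W)

/-- elements `(a, c, d)` of `Γ` -/
@[ext] structure Gam (H : HData L W) where
  a : L
  c : W
  d : ℤ

namespace Gam

variable {H : HData L W}

instance : Mul (Gam H) := ⟨fun x y =>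
  ⟨x.a + H.tz x.d y.a, x.c + H.sz x.d y.c + H.b x.a (H.tz x.d y.a), x.d + y.d⟩⟩
instance : One (Gam H) := ⟨⟨0, 0, 0⟩⟩
instance : Inv (Gam H) := ⟨fun x =>
  ⟨-H.tz (-x.d) x.a, -H.sz (-x.d) x.c + H.b (H.tz (-x.d) x.a) (H.tz (-x.d) x.a), -x.d⟩⟩

@[simp] theorem mul_a (x y : Gam H) : (x * y).a = x.a + H.tz x.d y.a := rfl
@[simp] theorem mul_c (x y : Gam H) :
    (x * y).c = x.c + H.sz x.d y.c + H.b x.a (H.tz x.d y.a) := rfl
@[simp] theorem mul_d (x y : Gam H) : (x * y).d = x.d + y.d := rfl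
@[simp] theorem one_a : (1 : Gam H).a = 0 := rfl
@[simp] theorem one_c : (1 : Gam H).c = 0 := rfl
@[simp] theorem one_d : (1 : Gam H).d = 0 := rfl

theorem tz_zero (x : L) : H.tz 0 x = x := by
  show ((H.t ^ (0 : ℤ) : (AddMonoid.End L)ˣ) : AddMonoid.End L) x = x
  rw [zpow_zero]; rfl

theorem sz_zero (x : W) : H.sz 0 x = x := by
  show ((H.s ^ (0 : ℤ) : (AddMonoid.End W)ˣ) : AddMonoid.End W) x = x
  rw [zpow_zero]; rfl

theorem tz_add (m n : ℤ) (x : L) : H.tz (m + n) x = H.tz m (H.tz n x) := by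
  show ((H.t ^ (m + n) : (AddMonoid.End L)ˣ) : AddMonoid.End L) x = _
  rw [zpow_add, Units.val_mul]; rfl

theorem sz_add (m n : ℤ) (x : W) : H.sz (m + n) x = H.sz m (H.sz n x) := by
  show ((H.s ^ (m + n) : (AddMonoid.End W)ˣ) : AddMonoid.End W) x = _
  rw [zpow_add, Units.val_mul]; rfl

theorem hb_zpow (H : HData L W) (n : ℤ) (x y : L) : H.b (H.tz n x) (H.tz n y) = H.sz n (H.b x y) := by
  have h1 : ∀ x y : L, H.b (H.tz 1 x) (H.tz 1 y) = H.sz 1 (H.b x y) := by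
    intro x y
    have := H.hb x y
    unfold HData.tz HData.sz
    rw [zpow_one, zpow_one]
    exact this
  have hm : ∀ x y : L, H.b (H.tz (-1) x) (H.tz (-1) y) = H.sz (-1) (H.b x y) := by
    intro x y
    have e : ∀ x : L, H.tz 1 (H.tz (-1) x) = x := fun x => by
      rw [← tz_add, show (1 : ℤ) + -1 = 0 by norm_num, tz_zero]
    have h2 := h1 (H.tz (-1) x) (H.tz (-1) y)
    rw [e, e] at h2
    rw [h2, ← sz_add, show (-1 : ℤ) + 1 = 0 by norm_num, sz_zero]
  induction n using Int.induction_on generalizing x y with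
  | zero => rw [tz_zero, tz_zero, sz_zero]
  | succ i ih => rw [tz_add, tz_add, sz_add, ih, h1]
  | pred i ih => rw [sub_eq_add_neg, tz_add, tz_add, sz_add, ih, hm]

instance : Group (Gam H) where
  mul_assoc x y z := by
    ext
    · simp only [mul_a, mul_d, tz_add, map_add]
      abel
    · simp only [mul_a, mul_c, mul_d, tz_add, sz_add, map_add, AddMonoidHom.add_apply]
      rw [← hb_zpow H x.d y.a]
      abel
    · simp only [mul_d]
      ring
  one_mul x := by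
    ext <;> simp [tz_zero, sz_zero]
  mul_one x := by
    ext <;> simp
  inv_mul_cancel x := by
    ext
    · show -H.tz (-x.d) x.a + H.tz (-x.d) x.a = 0
      simp
    · show (-H.sz (-x.d) x.c + H.b (H.tz (-x.d) x.a) (H.tz (-x.d) x.a)) + H.sz (-x.d) x.c +
        H.b (-H.tz (-x.d) x.a) (H.tz (-x.d) x.a) = 0
      rw [map_neg, AddMonoidHom.neg_apply]
      abel
    · show -x.d + x.d = 0
      ring

theorem inv_a (x : Gam H) : (x⁻¹).a = -H.tz (-x.d) x.a := rfl
theorem inv_d (x : Gam H) : (x⁻¹).d = -x.d := rfl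

/-- degree -/
def deg (H : HData L W) : Gam H →* Multiplicative ℤ where
  toFun x := Multiplicative.ofAdd x.d
  map_one' := rfl
  map_mul' _ _ := rfl

end Gam

/-! ### the concrete data -/

section concrete

variable (F : Type*) [Field F] (om : Fˣ) (m : ℕ)

/-- multiplication by `t = ω + ε` on `F[ε]/ε^m`, in coordinates -/
def Mt : Matrix (Fin m) (Fin m) F :=
  fun i j => if i = j then (om : F) else if (i : ℕ) = (j : ℕ) + 1 then 1 else 0

theorem Mt_lower (i j : Fin m) (h : i < j) : Mt F om m i j = 0 := by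
  unfold Mt
  rw [if_neg h.ne, if_neg]
  intro h'
  have : (i : ℕ) < j := h
  omega

theorem Mt_charpoly : (Mt F om m).charpoly = (Polynomial.X - Polynomial.C (om : F)) ^ m := by
  rw [← Matrix.charpoly_transpose, Matrix.charpoly_of_isUpperTriangular]
  · have : ∀ i : Fin m, Mt F om m i i = om := by
      intro i; simp [Mt]
    simp [Matrix.transpose_apply, this]
  · intro i j h
    exact Mt_lower F om m j i h

open Polynomial in
theorem Mt_isUnit (p : F[X]) (hp : p.eval (om : F) ≠ 0) :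
    ∃ B : Matrix (Fin m) (Fin m) F, B * aeval (Mt F om m) p = 1 ∧ aeval (Mt F om m) p * B = 1 := by
  have h1 : IsCoprime p (X - C (om : F)) := by
    refine ⟨C (p.eval (om : F))⁻¹, -C (p.eval (om : F))⁻¹ * (p /ₘ (X - C (om : F))), ?_⟩
    have h2 := modByMonic_add_div p (X - C (om : F))
    rw [modByMonic_X_sub_C_eq_C_eval] at h2
    have h3 : (C (p.eval (om : F))⁻¹ : F[X]) * C (p.eval (om : F)) = 1 := by
      rw [← C_mul, inv_mul_cancel₀ hp, C_1]
    calc C (p.eval (om : F))⁻¹ * p + -C (p.eval (om : F))⁻¹ * (p /ₘ (X - C (om : F))) *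
          (X - C (om : F))
        = C (p.eval (om : F))⁻¹ * (p - (X - C (om : F)) * (p /ₘ (X - C (om : F)))) := by ring
      _ = C (p.eval (om : F))⁻¹ * C (p.eval (om : F)) := by
          congr 1
          exact sub_eq_of_eq_add h2.symm
      _ = 1 := h3
  have h4 : IsCoprime p ((Mt F om m).charpoly) := by
    rw [Mt_charpoly]
    exact h1.pow_right
  obtain ⟨a, b, hab⟩ := h4
  have h5 := congrArg (aeval (Mt F om m)) hab
  rw [map_add, map_mul, map_mul, Matrix.aeval_self_charpoly, mul_zero, add_zero, map_one] at h5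
  refine ⟨aeval (Mt F om m) a, h5, ?_⟩
  rw [← map_mul, mul_comm, map_mul]
  exact h5

theorem Mt_inv : ∃ B : Matrix (Fin m) (Fin m) F, B * Mt F om m = 1 ∧ Mt F om m * B = 1 := by
  obtain ⟨B, h1, h2⟩ := Mt_isUnit F om m Polynomial.X (by simp)
  rw [Polynomial.aeval_X] at h1 h2
  exact ⟨B, h1, h2⟩

/-- the concrete data: `L = F^m`, `W = M_m(F)`, `b x y = x · σ(y)ᵀ`, `t = Mt`, `s X = Mt X σ(Mt)ᵀ`. -/
theorem exists_HData (σ : F ≃+* F) : ∃ H : HData (Fin m → F) (Matrix (Fin m) (Fin m) F),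
    (∀ x, H.tz 1 x = (Mt F om m).mulVec x) ∧
    (∀ X, H.sz 1 X = Mt F om m * X * ((Mt F om m).map σ).transpose) ∧
    ∀ x y, H.b x y = Matrix.vecMulVec x (fun j => σ (y j)) := by
  obtain ⟨B, hB1, hB2⟩ := Mt_inv F om m
  have hσ : ∀ X Y : Matrix (Fin m) (Fin m) F, (X * Y).map σ = X.map σ * Y.map σ := by
    intro X Y
    exact Matrix.map_mul (f := (σ : F →+* F))
  have hσ1 : (1 : Matrix (Fin m) (Fin m) F).map σ = 1 :=
    Matrix.map_one σ (map_zero σ) (map_one σ)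
  have e1 : ((Mt F om m).map σ).transpose * (B.map σ).transpose = 1 := by
    rw [← Matrix.transpose_mul, ← hσ, hB1, hσ1, Matrix.transpose_one]
  have e2 : (B.map σ).transpose * ((Mt F om m).map σ).transpose = 1 := by
    rw [← Matrix.transpose_mul, ← hσ, hB2, hσ1, Matrix.transpose_one]
  let t : (AddMonoid.End (Fin m → F))ˣ :=
    { val := (Matrix.mulVecLin (Mt F om m)).toAddMonoidHom
      inv := (Matrix.mulVecLin B).toAddMonoidHom
      val_inv := by
        ext1 x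
        show (Mt F om m).mulVec (B.mulVec x) = x
        rw [Matrix.mulVec_mulVec, hB2, Matrix.one_mulVec]
      inv_val := by
        ext1 x
        show B.mulVec ((Mt F om m).mulVec x) = x
        rw [Matrix.mulVec_mulVec, hB1, Matrix.one_mulVec] }
  let sv : Matrix (Fin m) (Fin m) F → Matrix (Fin m) (Fin m) F → Matrix (Fin m) (Fin m) F →+
      Matrix (Fin m) (Fin m) F := fun P R =>
    { toFun := fun X => P * X * R
      map_zero' := by simp
      map_add' := fun X Y => by rw [mul_add, add_mul] }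
  let s : (AddMonoid.End (Matrix (Fin m) (Fin m) F))ˣ :=
    { val := sv (Mt F om m) ((Mt F om m).map σ).transpose
      inv := sv B (B.map σ).transpose
      val_inv := by
        ext1 X
        show Mt F om m * (B * X * (B.map σ).transpose) * ((Mt F om m).map σ).transpose = X
        calc Mt F om m * (B * X * (B.map σ).transpose) * ((Mt F om m).map σ).transpose
            = (Mt F om m * B) * X * ((B.map σ).transpose * ((Mt F om m).map σ).transpose) := by
              simp only [Matrix.mul_assoc]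
          _ = X := by rw [hB2, e2, Matrix.one_mul, Matrix.mul_one]
      inv_val := by
        ext1 X
        show B * (Mt F om m * X * ((Mt F om m).map σ).transpose) * (B.map σ).transpose = X
        calc B * (Mt F om m * X * ((Mt F om m).map σ).transpose) * (B.map σ).transpose
            = (B * Mt F om m) * X * (((Mt F om m).map σ).transpose * (B.map σ).transpose) := by
              simp only [Matrix.mul_assoc]
          _ = X := by rw [hB1, e1, Matrix.one_mul, Matrix.mul_one] }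
  let b : (Fin m → F) →+ (Fin m → F) →+ Matrix (Fin m) (Fin m) F :=
    { toFun := fun x =>
        { toFun := fun y => Matrix.vecMulVec x (fun j => σ (y j))
          map_zero' := by ext i j; simp [Matrix.vecMulVec_apply]
          map_add' := fun y z => by ext i j; simp [Matrix.vecMulVec_apply, mul_add] }
      map_zero' := by ext y i j; simp [Matrix.vecMulVec_apply]
      map_add' := fun x z => by ext y i j; simp [Matrix.vecMulVec_apply, add_mul] }
  refine ⟨⟨t, s, b, ?_⟩, ?_, ?_, ?_⟩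
  · intro x y
    show Matrix.vecMulVec ((Mt F om m).mulVec x) (fun j => σ ((Mt F om m).mulVec y j)) =
      Mt F om m * Matrix.vecMulVec x (fun j => σ (y j)) * ((Mt F om m).map σ).transpose
    have e3 : (fun j => σ ((Mt F om m).mulVec y j)) =
        ((Mt F om m).map σ).mulVec (fun j => σ (y j)) := by
      funext i
      simp [Matrix.mulVec, dotProduct, map_sum]
    rw [e3, Matrix.mul_vecMulVec, Matrix.vecMulVec_mul, Matrix.vecMul_transpose]
  · intro x
    show ((t ^ (1 : ℤ) : (AddMonoid.End (Fin m → F))ˣ) : AddMonoid.End (Fin m → F)) x = _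
    rw [zpow_one]; rfl
  · intro X
    show ((s ^ (1 : ℤ) : (AddMonoid.End (Matrix (Fin m) (Fin m) F))ˣ) :
      AddMonoid.End (Matrix (Fin m) (Fin m) F)) X = _
    rw [zpow_one]; rfl
  · intro x y
    rfl

theorem sz_fix {L W : Type*} [AddCommGroup L] [AddCommGroup W] {H : HData L W} {c : W}
    (h : H.sz 1 c = c) (n : ℤ) : H.sz n c = c := by
  have hm : H.sz (-1) c = c := by
    conv_lhs => rw [← h]
    rw [← Gam.sz_add, show (-1 : ℤ) + 1 = 0 by norm_num, Gam.sz_zero]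
  induction n using Int.induction_on with
  | zero => exact Gam.sz_zero c
  | succ i ih => rw [Gam.sz_add, h, ih]
  | pred i ih => rw [sub_eq_add_neg, Gam.sz_add, hm, ih]

theorem central_of {L W : Type*} [AddCommGroup L] [AddCommGroup W] {H : HData L W} {x : Gam H}
    (ha : x.a = 0) (hd : x.d = 0) (hc : H.sz 1 x.c = x.c) (g : Gam H) : g * x = x * g := by
  ext
  · rw [Gam.mul_a, Gam.mul_a, ha, hd, Gam.tz_zero, map_zero, add_zero, zero_add]
  · rw [Gam.mul_c, Gam.mul_c, ha, hd, Gam.sz_zero, map_zero, map_zero, map_zero,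
      AddMonoidHom.zero_apply, sz_fix hc, add_zero, add_zero, add_comm]
  · rw [Gam.mul_d, Gam.mul_d, hd, add_zero, zero_add]

theorem five_facts [CharP F 5] : (5 : F) = 0 ∧ (3 : F) ≠ 0 ∧ (2 : F) ≠ 0 := by
  have h5 : (5 : F) = 0 := by exact_mod_cast CharP.cast_eq_zero F 5
  refine ⟨h5, ?_, ?_⟩
  · intro h
    apply one_ne_zero (α := F)
    linear_combination 2 * h - h5
  · intro h
    apply one_ne_zero (α := F)
    linear_combination h5 - 2 * h

/-- the case where the `L`-component of `V` vanishes -/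
theorem lam_base (σ : F ≃+* F) [CharP F 5] (hom : (om : F) ^ 2 - om + 1 = 0)
    (hσ : σ (om : F) = ((om⁻¹ : Fˣ) : F)) (H : HData (Fin m → F) (Matrix (Fin m) (Fin m) F))
    (ht : ∀ x, H.tz 1 x = (Mt F om m).mulVec x)
    (hs : ∀ X, H.sz 1 X = Mt F om m * X * ((Mt F om m).map σ).transpose)
    (hb : ∀ x y, H.b x y = Matrix.vecMulVec x (fun j => σ (y j)))
    (U V : Gam H) (hUV : U ^ 2 = V ^ 3) (hUd : U.d = 3) (hVd : V.d = 2) (hVa : V.a = 0) :
    (U ^ 2 * ((U * V⁻¹) ^ 6)⁻¹).a = 0 ∧ (U ^ 2 * ((U * V⁻¹) ^ 6)⁻¹).d = 0 ∧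
    H.sz 1 (U ^ 2 * ((U * V⁻¹) ^ 6)⁻¹).c = (U ^ 2 * ((U * V⁻¹) ^ 6)⁻¹).c ∧
    (U ^ 2 * ((U * V⁻¹) ^ 6)⁻¹ = 1 → U.a = 0) := by
  obtain ⟨h5, h3, h2⟩ := five_facts F
  obtain ⟨w, hwdef⟩ : ∃ w : F, w = (om : F) := ⟨_, rfl⟩
  obtain ⟨z, hzdef⟩ : ∃ z : F, z = ((om⁻¹ : Fˣ) : F) := ⟨_, rfl⟩
  have hzw : z * w = 1 := by rw [hzdef, hwdef, ← Units.val_mul, inv_mul_cancel, Units.val_one]
  rw [← hwdef] at hom
  rw [← hwdef, ← hzdef] at hσ
  have hz2 : z ^ 2 - z + 1 = 0 := by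
    linear_combination z ^ 2 * hom + (-(z * w) - 1 + z) * hzw
  have hw3 : w ^ 3 = -1 := by linear_combination (w + 1) * hom
  have hz3 : z ^ 3 = -1 := by linear_combination (z + 1) * hz2
  have tlin : ∀ (r : F) x, H.tz 1 (r • x) = r • H.tz 1 x := fun r x => by
    rw [ht, ht, Matrix.mulVec_smul]
  have slin : ∀ (r : F) X, H.sz 1 (r • X) = r • H.sz 1 X := fun r X => by
    rw [hs, hs, Matrix.mul_smul, Matrix.smul_mul]
  have bl : ∀ (r : F) x y, H.b (r • x) y = r • H.b x y := fun r x y => by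
    rw [hb, hb]; ext i j; simp [Matrix.vecMulVec_apply, mul_assoc]
  have br : ∀ (r : F) x y, H.b x (r • y) = σ r • H.b x y := fun r x y => by
    rw [hb, hb]; ext i j; simp [Matrix.vecMulVec_apply]; ring
  obtain ⟨u, hu⟩ : ∃ u, u = U.a := ⟨_, rfl⟩
  obtain ⟨y, hy⟩ : ∃ y, y = U.c := ⟨_, rfl⟩
  obtain ⟨v, hv⟩ : ∃ v, v = V.c := ⟨_, rfl⟩
  have t2 : ∀ x, H.tz 2 x = H.tz 1 (H.tz 1 x) := fun x => by
    rw [← Gam.tz_add]; norm_num
  have t3 : ∀ x, H.tz 3 x = H.tz 1 (H.tz 1 (H.tz 1 x)) := fun x => by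
    rw [← t2, ← Gam.tz_add]; norm_num
  have s2 : ∀ x, H.sz 2 x = H.sz 1 (H.sz 1 x) := fun x => by
    rw [← Gam.sz_add]; norm_num
  have s3 : ∀ x, H.sz 3 x = H.sz 1 (H.sz 1 (H.sz 1 x)) := fun x => by
    rw [← s2, ← Gam.sz_add]; norm_num
  have s4 : ∀ x, H.sz 4 x = H.sz 1 (H.sz 1 (H.sz 1 (H.sz 1 x))) := fun x => by
    rw [← s3, ← Gam.sz_add]; norm_num
  -- components of U ^ 2 and V ^ 3
  have hU2a : (U ^ 2).a = u + H.tz 3 u := by rw [pow_two, Gam.mul_a, hUd, hu]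
  have hU2c : (U ^ 2).c = y + H.sz 3 y + H.b u (H.tz 3 u) := by
    rw [pow_two, Gam.mul_c, hUd, hu, hy]
  have hU2d : (U ^ 2).d = 6 := by rw [pow_two, Gam.mul_d, hUd]; norm_num
  have hV2a : (V ^ 2).a = 0 := by rw [pow_two, Gam.mul_a, hVa, map_zero, add_zero]
  have hV2c : (V ^ 2).c = v + H.sz 2 v := by
    rw [pow_two, Gam.mul_c, hVd, hVa, map_zero, map_zero, AddMonoidHom.zero_apply, add_zero, hv]
  have hV2d : (V ^ 2).d = 4 := by rw [pow_two, Gam.mul_d, hVd]; norm_num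
  have hV3a : (V ^ 3).a = 0 := by
    rw [pow_succ, Gam.mul_a, hVa, map_zero, add_zero, hV2a]
  have hV3c : (V ^ 3).c = v + H.sz 2 v + H.sz 4 v := by
    rw [pow_succ, Gam.mul_c, hVa, map_zero, map_zero, add_zero, hV2d, hV2c, ← hv]
  -- eigenvector
  have hTu : H.tz 1 u = w • u := by
    have h6 : u + H.tz 3 u = 0 := by rw [← hU2a, hUV, hV3a]
    obtain ⟨B, hB1, -⟩ := Mt_isUnit F om m
      (Polynomial.X ^ 2 + Polynomial.C w * Polynomial.X + Polynomial.C (w ^ 2)) (by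
        simp only [Polynomial.eval_add, Polynomial.eval_pow, Polynomial.eval_X,
          Polynomial.eval_mul, Polynomial.eval_C, ← hwdef]
        intro h7
        have h8 : 3 * w ^ 2 = 0 := by linear_combination h7
        have h9 : w ≠ 0 := right_ne_zero_of_mul_eq_one hzw
        exact (mul_ne_zero h3 (pow_ne_zero 2 h9)) h8)
    have h7 : (Polynomial.aeval (Mt F om m)
        (Polynomial.X ^ 2 + Polynomial.C w * Polynomial.X + Polynomial.C (w ^ 2))).mulVec
        (H.tz 1 u - w • u) = 0 := by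
      have h8 : ∀ x, (Polynomial.aeval (Mt F om m)
        (Polynomial.X ^ 2 + Polynomial.C w * Polynomial.X + Polynomial.C (w ^ 2))).mulVec x =
          H.tz 1 (H.tz 1 x) + w • H.tz 1 x + w ^ 2 • x := by
        intro x
        rw [ht, ht]
        simp only [map_add, map_mul, Polynomial.aeval_X, Polynomial.aeval_C,
          Matrix.add_mulVec, pow_two, ← Matrix.mulVec_mulVec, Algebra.algebraMap_eq_smul_one,
          Matrix.smul_mulVec, Matrix.one_mulVec, smul_smul]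
      rw [h8]
      rw [t3] at h6
      simp only [map_sub, tlin]
      have h9 : H.tz 1 (H.tz 1 (H.tz 1 u)) = -u := (neg_eq_of_add_eq_zero_right h6).symm
      rw [h9]
      have h10 : w ^ 3 • u = -u := by rw [hw3, neg_smul, one_smul]
      have : -u - w • H.tz 1 (H.tz 1 u) + w • (H.tz 1 (H.tz 1 u) - w • H.tz 1 u) +
          w ^ 2 • (H.tz 1 u - w • u) = -u - w ^ 3 • u := by module
      rw [this, h10, sub_self]
    have h8 : H.tz 1 u - w • u = 0 := by
      have h9 := congrArg (fun x => B.mulVec x) h7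
      simp only [Matrix.mulVec_mulVec, hB1, Matrix.one_mulVec, Matrix.mulVec_zero] at h9
      exact h9
    exact sub_eq_zero.1 h8
  obtain ⟨e, he⟩ : ∃ e, e = H.b u u := ⟨_, rfl⟩
  have hSe : H.sz 1 e = e := by
    have h6 := Gam.hb_zpow H 1 u u
    rw [hTu, bl, br, hσ, ← he, smul_smul, mul_comm, hzw, one_smul] at h6
    exact h6.symm
  -- μ
  obtain ⟨mu, hmu⟩ : ∃ mu, mu = U * V⁻¹ := ⟨_, rfl⟩
  have hmV : mu * V = U := by rw [hmu, inv_mul_cancel_right]
  have hmd : mu.d = 1 := by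
    have := congrArg Gam.d hmV
    rw [Gam.mul_d, hVd, hUd] at this
    omega
  have hma : mu.a = u := by
    have := congrArg Gam.a hmV
    rw [Gam.mul_a, hVa, map_zero, add_zero, ← hu] at this
    exact this
  obtain ⟨p, hp⟩ : ∃ p, p = mu.c := ⟨_, rfl⟩
  have hmc : p + H.sz 1 v = y := by
    have := congrArg Gam.c hmV
    rw [Gam.mul_c, hVa, map_zero, map_zero, add_zero, hmd, ← hp, ← hv, ← hy] at this
    exact this
  have hm2a : (mu ^ 2).a = (1 + w) • u := by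
    rw [pow_two, Gam.mul_a, hmd, hma, hTu]; module
  have hm2d : (mu ^ 2).d = 2 := by rw [pow_two, Gam.mul_d, hmd]; norm_num
  have hm2c : (mu ^ 2).c = p + H.sz 1 p + z • e := by
    rw [pow_two, Gam.mul_c, hmd, hma, hTu, br, hσ, ← hp, he]
  have hm3a : (mu ^ 3).a = (1 + w + w ^ 2) • u := by
    rw [pow_succ, Gam.mul_a, hm2a, hm2d, hma, t2, hTu, tlin, hTu]; module
  have hm3d : (mu ^ 3).d = 3 := by rw [pow_succ, Gam.mul_d, hm2d, hmd]; norm_num
  have hm3c : (mu ^ 3).c = p + H.sz 1 p + H.sz 1 (H.sz 1 p) + (z + (1 + w) * z ^ 2) • e := by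
    rw [pow_succ, Gam.mul_c, hm2c, hm2d, hm2a, hma, s2, t2, hTu, tlin, hTu, bl, br, br, hσ, ← hp,
      ← he]
    module
  have hm6 : mu ^ 6 = mu ^ 3 * mu ^ 3 := by rw [← pow_add]
  have hm6d : (mu ^ 6).d = 6 := by rw [hm6, Gam.mul_d, hm3d]; norm_num
  have hT3u : ∀ r : F, H.tz 3 (r • u) = -(r • u) := by
    intro r
    simp only [t3, tlin, hTu]
    have : r • w • w • w • u = (r * w ^ 3) • u := by module
    rw [this, hw3]; module
  have hm6a : (mu ^ 6).a = 0 := by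
    rw [hm6, Gam.mul_a, hm3d, hm3a, hT3u, add_neg_cancel]
  obtain ⟨k, hk⟩ : ∃ k : F, k = z + (1 + w) * z ^ 2 := ⟨_, rfl⟩
  have hσ1 : σ (1 + w + w ^ 2) = 1 + z + z ^ 2 := by
    rw [map_add, map_add, map_one, map_pow, hσ]
  have hm6c : (mu ^ 6).c = (p + H.sz 1 p + H.sz 1 (H.sz 1 p) + k • e) +
      (H.sz 3 p + H.sz 3 (H.sz 1 p) + H.sz 3 (H.sz 1 (H.sz 1 p)) + k • e) -
      ((1 + w + w ^ 2) * (1 + z + z ^ 2)) • e := by
    rw [hm6, Gam.mul_c, hm3d, hm3a, hT3u, hm3c, map_neg, bl, br, hσ1, ← he, ← hk]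
    simp only [map_add]
    have : H.sz 3 (k • e) = k • e := by
      rw [s3, slin, hSe, slin, hSe, slin, hSe]
    rw [this]
    module
  -- λ
  obtain ⟨lam, hlam⟩ : ∃ lam, lam = U ^ 2 * (mu ^ 6)⁻¹ := ⟨_, rfl⟩
  have hlm : lam * mu ^ 6 = U ^ 2 := by rw [hlam, inv_mul_cancel_right]
  rw [← hmu, ← hlam]
  have hld : lam.d = 0 := by
    have := congrArg Gam.d hlm
    rw [Gam.mul_d, hm6d, hU2d] at this
    omega
  have hU2a0 : (U ^ 2).a = 0 := by rw [hUV, hV3a]
  have hla : lam.a = 0 := by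
    have := congrArg Gam.a hlm
    rw [Gam.mul_a, hm6a, map_zero, add_zero, hU2a0] at this
    exact this
  have hlc : lam.c + (mu ^ 6).c = (U ^ 2).c := by
    have := congrArg Gam.c hlm
    rw [Gam.mul_c, hld, hla, Gam.sz_zero, map_zero, AddMonoidHom.zero_apply, add_zero] at this
    exact this
  have hlc' : lam.c = (3 - 6 * z) • e := by
    have hT3 : H.tz 3 u = -u := by
      have := hT3u 1
      rwa [one_smul] at this
    have q1 : y + H.sz 3 y - e = v + H.sz 2 v + H.sz 4 v := by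
      rw [← hV3c, ← hUV, hU2c, hT3, map_neg, ← he]; abel
    have q2 := congrArg (H.sz 1) q1
    have q3 := congrArg (H.sz 1) q2
    simp only [map_add, map_sub, hSe] at q2 q3
    have q0 : lam.c = (U ^ 2).c - (mu ^ 6).c := eq_sub_of_add_eq hlc
    rw [q0, hm6c, hU2c, hT3, map_neg, ← he]
    have hp' : p = y - H.sz 1 v := eq_sub_of_add_eq hmc
    rw [hp']
    simp only [map_sub, s2, s3, s4] at q1 q2 q3 ⊢
    generalize H.sz 1 y = y1 at *
    generalize H.sz 1 y1 = y2 at *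
    generalize H.sz 1 y2 = y3 at *
    generalize H.sz 1 y3 = y4 at *
    generalize H.sz 1 y4 = y5 at *
    generalize H.sz 1 v = v1 at *
    generalize H.sz 1 v1 = v2 at *
    generalize H.sz 1 v2 = v3 at *
    generalize H.sz 1 v3 = v4 at *
    generalize H.sz 1 v4 = v5 at *
    generalize H.sz 1 v5 = v6 at *
    have hcoef : (3 - 6 * z : F) = -3 - 2 * k + (1 + w + w ^ 2) * (1 + z + z ^ 2) := by
      rw [hk]
      linear_combination (2 - 2 * w - (w ^ 2 - w + 1)) * hz2 + (2 * z - 4) * hzw - 2 * z * hom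
    rw [hcoef]
    have q2' : y1 + y4 - e = v1 + v3 + v5 := q2
    have q3' : y2 + y5 - e = v2 + v4 + v6 := q3
    have f1 : y1 + y4 = v1 + v3 + v5 + e := by rw [← q2']; abel
    have f2 : y2 + y5 = v2 + v4 + v6 + e := by rw [← q3']; abel
    linear_combination (norm := module) (-1 : F) • f1 + (-1 : F) • f2
  refine ⟨hla, hld, by rw [hlc', slin, hSe], ?_⟩
  intro hl1
  have h6 : (3 - 6 * z) • e = 0 := by rw [← hlc', hl1]; rfl
  have h7 : (3 - 6 * z : F) ≠ 0 := by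
    intro h8
    have h9 : 1 - 2 * z = 0 := by
      apply mul_left_cancel₀ h3
      linear_combination h8
    apply h3
    linear_combination 4 * hz2 - (1 - 2 * z) * h9
  have h8 : e = 0 := (smul_eq_zero.1 h6).resolve_left h7
  rw [← hu]
  funext i
  have h9 := congrFun (congrFun (he.symm.trans h8) i) i
  rw [hb, Matrix.vecMulVec_apply] at h9
  rcases mul_eq_zero.1 h9 with h10 | h10
  · exact h10
  · exact (map_eq_zero_iff σ σ.injective).1 h10

theorem lam_32 (σ : F ≃+* F) [CharP F 5] (hom : (om : F) ^ 2 - om + 1 = 0)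
    (hσ : σ (om : F) = ((om⁻¹ : Fˣ) : F)) (H : HData (Fin m → F) (Matrix (Fin m) (Fin m) F))
    (ht : ∀ x, H.tz 1 x = (Mt F om m).mulVec x)
    (hs : ∀ X, H.sz 1 X = Mt F om m * X * ((Mt F om m).map σ).transpose)
    (hb : ∀ x y, H.b x y = Matrix.vecMulVec x (fun j => σ (y j)))
    (U V : Gam H) (hUV : U ^ 2 = V ^ 3) (hUd : U.d = 3) (hVd : V.d = 2) :
    (U ^ 2 * ((U * V⁻¹) ^ 6)⁻¹).a = 0 ∧ (U ^ 2 * ((U * V⁻¹) ^ 6)⁻¹).d = 0 ∧
    H.sz 1 (U ^ 2 * ((U * V⁻¹) ^ 6)⁻¹).c = (U ^ 2 * ((U * V⁻¹) ^ 6)⁻¹).c ∧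
    (U ^ 2 * ((U * V⁻¹) ^ 6)⁻¹ = 1 → ∃ x : Fin m → F,
      U.a = x - H.tz U.d x ∧ V.a = x - H.tz V.d x) := by
  obtain ⟨h5, h3, h2⟩ := five_facts F
  obtain ⟨x, hx⟩ : ∃ x : Fin m → F, V.a = x - H.tz 2 x := by
    obtain ⟨B, -, hB⟩ := Mt_isUnit F om m (1 - Polynomial.X ^ 2) (by
      simp only [Polynomial.eval_sub, Polynomial.eval_one, Polynomial.eval_pow, Polynomial.eval_X]
      intro h
      have h6 : (om : F) = 2 := by linear_combination -h - hom
      rw [h6] at h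
      apply h3
      linear_combination -h)
    refine ⟨B.mulVec V.a, ?_⟩
    have h6 : ∀ x, (Polynomial.aeval (Mt F om m) ((1 - Polynomial.X ^ 2 : Polynomial F))).mulVec x =
        x - H.tz 2 x := by
      intro x
      have t2 : H.tz 2 x = H.tz 1 (H.tz 1 x) := by rw [← Gam.tz_add]; norm_num
      rw [t2, ht, ht]
      simp only [map_sub, map_one, map_mul, Polynomial.aeval_X, Matrix.sub_mulVec,
        Matrix.one_mulVec, pow_two, ← Matrix.mulVec_mulVec]
    rw [← h6, Matrix.mulVec_mulVec, hB, Matrix.one_mulVec]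
  obtain ⟨g, hg⟩ : ∃ g : Gam H, g = ⟨x, 0, 0⟩ := ⟨_, rfl⟩
  have hga : g.a = x := by rw [hg]
  have hgd : g.d = 0 := by rw [hg]
  have hgia : (g⁻¹).a = -x := by
    rw [Gam.inv_a, hga, hgd, neg_zero, Gam.tz_zero]
  have hgid : (g⁻¹).d = 0 := by rw [Gam.inv_d, hgd, neg_zero]
  have conj_a : ∀ X : Gam H, (g⁻¹ * X * g).a = -x + X.a + H.tz X.d x := by
    intro X
    rw [Gam.mul_a, Gam.mul_a, Gam.mul_d, hgia, hgid, hga, Gam.tz_zero, zero_add]
  have conj_d : ∀ X : Gam H, (g⁻¹ * X * g).d = X.d := by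
    intro X
    rw [Gam.mul_d, Gam.mul_d, hgid, hgd, zero_add, add_zero]
  have cp : ∀ (X : Gam H) (n : ℕ), (g⁻¹ * X * g) ^ n = g⁻¹ * X ^ n * g := by
    intro X n
    have := conj_pow (i := n) (a := g⁻¹) (b := X)
    rwa [inv_inv] at this
  have hcV : (g⁻¹ * V * g).a = 0 := by rw [conj_a, hx, hVd]; abel
  have hUV' : (g⁻¹ * U * g) ^ 2 = (g⁻¹ * V * g) ^ 3 := by rw [cp, cp, hUV]
  obtain ⟨l1, l2, l3, l4⟩ := lam_base F om m σ hom hσ H ht hs hb (g⁻¹ * U * g) (g⁻¹ * V * g)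
    hUV' (by rw [conj_d, hUd]) (by rw [conj_d, hVd]) hcV
  have e1 : (g⁻¹ * U * g) ^ 2 * (((g⁻¹ * U * g) * (g⁻¹ * V * g)⁻¹) ^ 6)⁻¹ =
      g⁻¹ * (U ^ 2 * ((U * V⁻¹) ^ 6)⁻¹) * g := by
    have e2 : (g⁻¹ * U * g) * (g⁻¹ * V * g)⁻¹ = g⁻¹ * (U * V⁻¹) * g := by group
    rw [e2, cp, cp]
    group
  rw [e1] at l1 l2 l3 l4
  have e3 : g⁻¹ * (U ^ 2 * ((U * V⁻¹) ^ 6)⁻¹) * g = U ^ 2 * ((U * V⁻¹) ^ 6)⁻¹ := by
    have h6 := central_of l1 l2 l3 g
    have h7 : g * (g⁻¹ * (U ^ 2 * ((U * V⁻¹) ^ 6)⁻¹) * g) = (U ^ 2 * ((U * V⁻¹) ^ 6)⁻¹) * g := by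
      group
    rw [h7] at h6
    exact (mul_right_cancel h6).symm
  rw [e3] at l1 l2 l3 l4
  refine ⟨l1, l2, l3, fun h => ⟨x, ?_, ?_⟩⟩
  · have h6 := l4 h
    rw [conj_a] at h6
    have : U.a = x - H.tz U.d x + (-x + U.a + H.tz U.d x) := by abel
    rw [this, h6, add_zero]
  · rw [hVd]; exact hx

/-- (5.3). `ω` a primitive 6th root of unity in a field of characteristic 5, `σ ω = ω⁻¹`.
`λ` is central, lies in `W`, and vanishes only if the `L`-components of `U`, `W` form a coboundary. -/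
theorem lam_formula (σ : F ≃+* F) [CharP F 5] (hom : (om : F) ^ 2 - om + 1 = 0)
    (hσ : σ (om : F) = ((om⁻¹ : Fˣ) : F)) (H : HData (Fin m → F) (Matrix (Fin m) (Fin m) F))
    (ht : ∀ x, H.tz 1 x = (Mt F om m).mulVec x)
    (hs : ∀ X, H.sz 1 X = Mt F om m * X * ((Mt F om m).map σ).transpose)
    (hb : ∀ x y, H.b x y = Matrix.vecMulVec x (fun j => σ (y j)))
    (U V : Gam H) (hUV : U ^ 2 = V ^ 3) (hd : (U.d = 3 ∧ V.d = 2) ∨ (U.d = -3 ∧ V.d = -2)) :
    (∀ g : Gam H, g * (U ^ 2 * ((U * V⁻¹) ^ 6)⁻¹) = (U ^ 2 * ((U * V⁻¹) ^ 6)⁻¹) * g) ∧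
    (U ^ 2 * ((U * V⁻¹) ^ 6)⁻¹).a = 0 ∧ (U ^ 2 * ((U * V⁻¹) ^ 6)⁻¹).d = 0 ∧
    (U ^ 2 * ((U * V⁻¹) ^ 6)⁻¹ = 1 → ∃ x : Fin m → F,
      U.a = x - H.tz U.d x ∧ V.a = x - H.tz V.d x) := by
  rcases hd with ⟨hUd, hVd⟩ | ⟨hUd, hVd⟩
  · obtain ⟨l1, l2, l3, l4⟩ := lam_32 F om m σ hom hσ H ht hs hb U V hUV hUd hVd
    exact ⟨central_of l1 l2 l3, l1, l2, l4⟩
  · have hUV' : (U⁻¹) ^ 2 = (V⁻¹) ^ 3 := by rw [inv_pow, inv_pow, hUV]
    obtain ⟨l1, l2, l3, l4⟩ := lam_32 F om m σ hom hσ H ht hs hb U⁻¹ V⁻¹ hUV'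
      (by rw [Gam.inv_d, hUd]; norm_num) (by rw [Gam.inv_d, hVd]; norm_num)
    obtain ⟨K, hK⟩ : ∃ K, K = U * V⁻¹ := ⟨_, rfl⟩
    obtain ⟨lam, hlam⟩ : ∃ lam, lam = U ^ 2 * (K ^ 6)⁻¹ := ⟨_, rfl⟩
    obtain ⟨l', hl'⟩ : ∃ l', l' = (U⁻¹) ^ 2 * ((U⁻¹ * (V⁻¹)⁻¹) ^ 6)⁻¹ := ⟨_, rfl⟩
    rw [← hl'] at l1 l2 l3 l4
    rw [← hK, ← hlam]
    have c1 : Commute (U ^ 2) U := (Commute.refl U).pow_left 2
    have c2 : Commute (U ^ 2) V := by rw [hUV]; exact (Commute.refl V).pow_left 3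
    have c3 : Commute (U ^ 2) K := by rw [hK]; exact c1.mul_right c2.inv_right
    have c4 : Commute (U ^ 2) (K ^ 6) := c3.pow_right 6
    have e1 : (U⁻¹ * (V⁻¹)⁻¹) ^ 6 = U⁻¹ * (K ^ 6)⁻¹ * U := by
      have h6 : U⁻¹ * (V⁻¹)⁻¹ = U⁻¹ * K⁻¹ * (U⁻¹)⁻¹ := by rw [hK]; group
      rw [h6, conj_pow, inv_inv, inv_pow]
    have e2 : U * l' * U⁻¹ = (U ^ 2)⁻¹ * K ^ 6 := by
      rw [hl', e1]
      have : U * ((U⁻¹) ^ 2 * (U⁻¹ * (K ^ 6)⁻¹ * U)⁻¹) * U⁻¹ = (U ^ 2)⁻¹ * K ^ 6 := by group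
      exact this
    have e3 : U * l' * U⁻¹ = l' := by
      rw [central_of l1 l2 l3 U, mul_inv_cancel_right]
    have e4 : lam * l' = 1 := by
      rw [← e3, e2, hlam]
      have h6 : (U ^ 2)⁻¹ * K ^ 6 = K ^ 6 * (U ^ 2)⁻¹ := (c4.inv_left).eq
      rw [h6]; group
    have hd0 : lam.d = 0 := by
      have := congrArg Gam.d e4
      rw [Gam.mul_d, l2, add_zero] at this
      exact this
    have ha0 : lam.a = 0 := by
      have := congrArg Gam.a e4
      rw [Gam.mul_a, l1, map_zero, add_zero] at this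
      exact this
    have hc0 : lam.c = -l'.c := by
      have := congrArg Gam.c e4
      rw [Gam.mul_c, ha0, hd0, Gam.sz_zero, map_zero, AddMonoidHom.zero_apply, add_zero] at this
      exact eq_neg_of_add_eq_zero_left this
    refine ⟨central_of ha0 hd0 (by rw [hc0, map_neg, l3]), ha0, hd0, ?_⟩
    intro h
    rw [h, one_mul] at e4
    obtain ⟨x, hx1, hx2⟩ := l4 e4
    have key : ∀ X : Gam H, (X⁻¹).a = x - H.tz (X⁻¹).d x → X.a = x - H.tz X.d x := by
      intro X hX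
      rw [Gam.inv_a, Gam.inv_d] at hX
      have h6 := congrArg (H.tz X.d) hX
      rw [map_neg, map_sub, ← Gam.tz_add, ← Gam.tz_add, add_neg_cancel, Gam.tz_zero,
        Gam.tz_zero] at h6
      have h7 : X.a = -(H.tz X.d x - x) := by rw [← h6, neg_neg]
      rw [h7]; abel
    exact ⟨x, key U hx1, key V hx2⟩

/-- the kernel of the degree is a finite 5-group if `F` is finite of characteristic 5 -/
theorem gam_ker [Finite F] [CharP F 5] (H : HData (Fin m → F) (Matrix (Fin m) (Fin m) F)) :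
    Finite (Gam.deg H).ker ∧ IsPGroup 5 (Gam.deg H).ker := by
  classical
  have := Fintype.ofFinite F
  let E : (Gam.deg H).ker ≃ (Fin m → F) × Matrix (Fin m) (Fin m) F :=
    { toFun := fun g => (g.1.a, g.1.c)
      invFun := fun x => ⟨⟨x.1, x.2, 0⟩, rfl⟩
      left_inv := by
        rintro ⟨g, hg⟩
        apply Subtype.ext
        have hd : g.d = 0 := Multiplicative.ofAdd.injective hg
        ext
        · rfl
        · rfl
        · exact hd.symm
      right_inv := fun x => rfl }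
  have hfin : Finite (Gam.deg H).ker := Finite.of_equiv _ E.symm
  refine ⟨hfin, ?_⟩
  obtain ⟨n, -, hn⟩ := FiniteField.card F 5
  refine IsPGroup.of_card (n := (n : ℕ) * m + (n : ℕ) * (m * m)) ?_
  rw [Nat.card_congr E, Nat.card_prod]
  have h1 : Nat.card (Fin m → F) = 5 ^ ((n : ℕ) * m) := by
    rw [Nat.card_eq_fintype_card, Fintype.card_fun, hn, Fintype.card_fin, ← pow_mul]
  have h2 : Nat.card (Matrix (Fin m) (Fin m) F) = 5 ^ ((n : ℕ) * (m * m)) := by
    have : Nat.card (Matrix (Fin m) (Fin m) F) = Nat.card (Fin m → Fin m → F) := rfl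
    rw [this, Nat.card_eq_fintype_card, Fintype.card_fun, Fintype.card_fun, hn, Fintype.card_fin,
      ← pow_mul, ← pow_mul]
  rw [h1, h2, ← pow_add]

end concrete

end Pool.Agent.Helper60.Alg
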