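import Mathlib

/-! Monomial representations with entries in `μ₅`. -/

set_option autoImplicit false

namespace Pool.Agent.Helper60.Alg

/-- a monomial representation of degree `n` with values in `μ₅` (written additively in `ZMod 5`) -/
structure Mono (G : Type*) [Group G] (n : ℕ) where
  p : G →* Equiv.Perm (Fin n)
  e : G → Fin n → ZMod 5
  he : ∀ g h j, e (g * h) j = e g (p h j) + e h j

namespace Mono

variable {G : Type*} [Group G] {n : ℕ} (M : Mono G n)

/-- powers of `z` with exponent in `ZMod 5` (meaningful if `z ^ 5 = 1`) -/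
def zp {A : Type*} [Monoid A] (z : A) (a : ZMod 5) : A := z ^ a.val

theorem zp_add {A : Type*} [Monoid A] {z : A} (hz : z ^ 5 = 1) (a b : ZMod 5) :
    zp z (a + b) = zp z a * zp z b := by
  unfold zp
  rw [ZMod.val_add, ← pow_add]
  conv_rhs => rw [← Nat.div_add_mod (a.val + b.val) 5, pow_add, pow_mul, hz, one_pow, one_mul]

theorem zp_zero {A : Type*} [Monoid A] (z : A) : zp z 0 = 1 := by
  unfold zp
  rw [ZMod.val_zero, pow_zero]

theorem e_one (j : Fin n) : M.e 1 j = 0 := by
  have h := M.he 1 1 j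
  rw [mul_one, map_one, Equiv.Perm.one_apply] at h
  exact left_eq_add.1 h

/-- the matrix representation over a commutative ring with a chosen `z`, `z ^ 5 = 1` -/
def rep {A : Type*} [CommRing A] (z : A) (hz : z ^ 5 = 1) : G →* Matrix (Fin n) (Fin n) A where
  toFun g := fun i j => if i = M.p g j then zp z (M.e g j) else 0
  map_one' := by
    ext i j
    rw [map_one, Equiv.Perm.one_apply, e_one, zp_zero, Matrix.one_apply]
  map_mul' g h := by
    ext i j
    show (if i = M.p (g * h) j then zp z (M.e (g * h) j) else 0) =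
      ∑ k, (if i = M.p g k then zp z (M.e g k) else 0) * (if k = M.p h j then zp z (M.e h j) else 0)
    rw [map_mul, Equiv.Perm.mul_apply]
    rw [Finset.sum_eq_single (M.p h j)]
    · rw [if_pos (rfl : M.p h j = M.p h j)]
      by_cases hi : i = M.p g (M.p h j)
      · rw [if_pos hi, if_pos hi, M.he, zp_add hz]
      · rw [if_neg hi, if_neg hi, zero_mul]
    · intro k _ hk
      rw [if_neg hk, mul_zero]
    · intro hk
      exact absurd (Finset.mem_univ _) hk

theorem rep_apply {A : Type*} [CommRing A] (z : A) (hz : z ^ 5 = 1) (g : G) (i j : Fin n) :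
    M.rep z hz g i j = if i = M.p g j then zp z (M.e g j) else 0 := rfl

theorem rep_map {A B : Type*} [CommRing A] [CommRing B] (φ : A →+* B) (z : A) (hz : z ^ 5 = 1)
    (hz' : φ z ^ 5 = 1) (g : G) : (M.rep z hz g).map φ = M.rep (φ z) hz' g := by
  ext i j
  rw [Matrix.map_apply, rep_apply, rep_apply]
  by_cases hi : i = M.p g j
  · rw [if_pos hi, if_pos hi]
    unfold zp
    rw [map_pow]
  · rw [if_neg hi, if_neg hi, map_zero]

theorem rep_unitary {A : Type*} [CommRing A] (z : A) (hz : z ^ 5 = 1) (σ : A →+* A)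
    (hσ : σ z * z = 1) (g : G) : ((M.rep z hz g).map σ).transpose * M.rep z hz g = 1 := by
  ext i j
  rw [Matrix.mul_apply, Matrix.one_apply]
  rw [Finset.sum_eq_single (M.p g j)]
  · rw [Matrix.transpose_apply, Matrix.map_apply, rep_apply, rep_apply, if_pos rfl]
    by_cases hi : i = j
    · subst hi
      rw [if_pos rfl, if_pos rfl]
      unfold zp
      rw [map_pow, ← mul_pow, hσ, one_pow]
    · rw [if_neg hi, if_neg (fun h => hi ((M.p g).injective h).symm), map_zero, zero_mul]
  · intro k _ hk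
    rw [rep_apply M z hz g k j, if_neg hk, mul_zero]
  · intro hk
    exact absurd (Finset.mem_univ _) hk

theorem rep_congr {A : Type*} [CommRing A] (z : A) (hz : z ^ 5 = 1) {g h : G} (h1 : M.p g = M.p h)
    (h2 : M.e g = M.e h) : M.rep z hz g = M.rep z hz h := by
  ext i j
  rw [rep_apply, rep_apply, h1, h2]

theorem rep_finite_order {A : Type*} [CommRing A] (z : A) (hz : z ^ 5 = 1) (g : G) :
    ∃ N : ℕ, 0 < N ∧ M.rep z hz g ^ N = 1 := by
  obtain ⟨a, b, hab, h⟩ := Finite.exists_ne_map_eq_of_infinite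
    (fun k : ℕ => (M.p (g ^ k), M.e (g ^ k)))
  have h1 : M.p (g ^ a) = M.p (g ^ b) := (Prod.mk.inj h).1
  have h2 : M.e (g ^ a) = M.e (g ^ b) := (Prod.mk.inj h).2
  have h3 : M.rep z hz (g ^ a) = M.rep z hz (g ^ b) := M.rep_congr z hz h1 h2
  have key : ∀ c d : ℕ, c < d → M.rep z hz (g ^ c) = M.rep z hz (g ^ d) →
      ∃ N : ℕ, 0 < N ∧ M.rep z hz g ^ N = 1 := by
    intro c d hcd h4
    refine ⟨d - c, by omega, ?_⟩
    have h5 : M.rep z hz ((g ^ c)⁻¹) * M.rep z hz (g ^ c) = 1 := by
      rw [← map_mul, inv_mul_cancel, map_one]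
    rw [← map_pow]
    have h6 : g ^ (d - c) = (g ^ c)⁻¹ * g ^ d := by
      rw [eq_inv_mul_iff_mul_eq, ← pow_add]
      congr 1
      omega
    rw [h6, map_mul, ← h4, h5]
  rcases lt_or_gt_of_ne hab with h4 | h4
  · exact key a b h4 h3
  · exact key b a h4 h3.symm

end Mono

open Mono in
/-- existence: `Γ` with a homomorphism to `ℤ` that splits (`deg t = 1`) and whose kernel `P` is a
finite 5-group, `y ∈ P` central in `Γ` of order 5. Then there is a monomial representation of odd degree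
`n = |P|/5` in which `y` acts by the scalar `ζ`. -/
theorem exists_mono {G : Type*} [Group G] (deg : G →* Multiplicative ℤ) (hf : Finite deg.ker)
    (hp : IsPGroup 5 deg.ker) (t : G) (ht : deg t = Multiplicative.ofAdd 1) (y : G) (hy : y ∈ deg.ker)
    (hc : ∀ g, g * y = y * g) (hy1 : y ≠ 1) (hy5 : y ^ 5 = 1) :
    ∃ (n : ℕ) (M : Mono G n), Odd n ∧ M.p y = 1 ∧ ∀ j, M.e y j = 1 := by
  classical
  have : Fact (Nat.Prime 5) := ⟨by norm_num⟩
  have hcy : ∀ g, Commute g y := hc
  -- the subgroup `K = ⟨t, y⟩` and its character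
  let φ1 : Multiplicative ℤ →* G := zpowersHom G t
  let φ2 : Multiplicative (ZMod 5) →* G :=
    { toFun := fun a => zp y a.toAdd
      map_one' := zp_zero y
      map_mul' := fun a b => zp_add hy5 a.toAdd b.toAdd }
  have hcomm : ∀ a b, Commute (φ1 a) (φ2 b) := fun a b => (hcy _).pow_right _
  let φ : Multiplicative ℤ × Multiplicative (ZMod 5) →* G := MonoidHom.noncommCoprod φ1 φ2 hcomm
  have hφ : ∀ a b, φ (a, b) = φ1 a * φ2 b := fun a b => rfl
  have hdy : deg y = 1 := hy
  have hdφ : ∀ a b, deg (φ (a, b)) = a := by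
    intro a b
    have h1 : deg (φ1 a) = a := by
      show deg (t ^ a.toAdd) = a
      rw [map_zpow, ht, ← ofAdd_zsmul, smul_eq_mul, mul_one]
      rfl
    have h2 : deg (φ2 b) = 1 := by
      show deg (y ^ _) = 1
      rw [map_pow, hdy, one_pow]
    rw [hφ, map_mul, h1, h2, mul_one]
  have horder : orderOf y = 5 := orderOf_eq_prime hy5 hy1
  have hinj : Function.Injective φ := by
    rw [injective_iff_map_eq_one]
    rintro ⟨a, b⟩ h
    have ha : a = 1 := by rw [← hdφ a b, h, map_one]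
    subst ha
    have hb : y ^ (b.toAdd : ZMod 5).val = 1 := by
      rw [hφ, map_one, one_mul] at h
      exact h
    have h2 : 5 ∣ (b.toAdd : ZMod 5).val := by
      have := orderOf_dvd_of_pow_eq_one hb
      rwa [horder] at this
    have h3 : (b.toAdd : ZMod 5).val = 0 :=
      Nat.eq_zero_of_dvd_of_lt h2 (ZMod.val_lt _)
    have h4 : (b.toAdd : ZMod 5) = 0 := (ZMod.val_eq_zero _).1 h3
    exact Prod.ext rfl h4
  let K : Subgroup G := φ.range
  let ψ : (Multiplicative ℤ × Multiplicative (ZMod 5)) ≃* K := MonoidHom.ofInjective hinj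
  let χ : K →* Multiplicative (ZMod 5) := (MonoidHom.snd _ _).comp ψ.symm.toMonoidHom
  have htK : ∀ k : ℤ, t ^ k ∈ K := by
    intro k
    refine ⟨(Multiplicative.ofAdd k, 1), ?_⟩
    rw [hφ, map_one, mul_one]
    rfl
  have hyK : y ∈ K := by
    refine ⟨(1, Multiplicative.ofAdd 1), ?_⟩
    rw [hφ, map_one, one_mul]
    show y ^ (1 : ZMod 5).val = y
    exact pow_one y
  have hχy : χ ⟨y, hyK⟩ = Multiplicative.ofAdd 1 := by
    have h1 : ψ (1, Multiplicative.ofAdd 1) = ⟨y, hyK⟩ := by
      apply Subtype.ext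
      show φ (1, Multiplicative.ofAdd 1) = y
      rw [hφ, map_one, one_mul]
      show y ^ (1 : ZMod 5).val = y
      exact pow_one y
    show (ψ.symm ⟨y, hyK⟩).2 = _
    rw [← h1, MulEquiv.symm_apply_apply]
  -- finiteness and parity of the index
  have hrep : ∀ g : G, ∃ p : deg.ker, ((p : G) : G ⧸ K) = (g : G ⧸ K) := by
    intro g
    refine ⟨⟨g * t ^ (-(deg g).toAdd), ?_⟩, ?_⟩
    · rw [MonoidHom.mem_ker, map_mul, map_zpow, ht, ← ofAdd_zsmul, smul_eq_mul, mul_one]
      show deg g * (Multiplicative.ofAdd ((deg g).toAdd))⁻¹ = 1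
      rw [ofAdd_toAdd, mul_inv_cancel]
    · rw [QuotientGroup.eq]
      show (g * t ^ (-(deg g).toAdd))⁻¹ * g ∈ K
      have : (g * t ^ (-(deg g).toAdd))⁻¹ * g = t ^ ((deg g).toAdd) := by group
      rw [this]
      exact htK _
  have hsurj : Function.Surjective (fun p : deg.ker => ((p : G) : G ⧸ K)) := by
    intro q
    obtain ⟨g, rfl⟩ := QuotientGroup.mk_surjective q
    exact hrep g
  have hfin : Finite (G ⧸ K) := Finite.of_surjective _ hsurj
  have htrans : MulAction.IsPretransitive deg.ker (G ⧸ K) := by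
    refine (MulAction.isPretransitive_iff_base ((1 : G) : G ⧸ K)).2 fun q => ?_
    obtain ⟨p, hp⟩ := hsurj q
    refine ⟨p, ?_⟩
    show (((p : G) * 1 : G) : G ⧸ K) = q
    rw [mul_one]
    exact hp
  have hodd : Odd (Nat.card (G ⧸ K)) := by
    rw [← MulAction.index_stabilizer_of_transitive deg.ker ((1 : G) : G ⧸ K)]
    have h1 := Subgroup.index_dvd_card (MulAction.stabilizer deg.ker ((1 : G) : G ⧸ K))
    obtain ⟨a, ha⟩ := (IsPGroup.iff_card (p := 5) (G := deg.ker)).1 hp
    rw [ha] at h1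
    obtain ⟨b, -, hb⟩ := (Nat.dvd_prime_pow (by norm_num)).1 h1
    rw [hb]
    exact Odd.pow (by decide)
  let E : (G ⧸ K) ≃ Fin (Nat.card (G ⧸ K)) := Finite.equivFin _
  let s : G ⧸ K → G := Quotient.out
  have hs : ∀ q : G ⧸ K, ((s q : G) : G ⧸ K) = q := fun q => QuotientGroup.out_eq' q
  have hk : ∀ (g : G) (q : G ⧸ K), (s (g • q))⁻¹ * (g * s q) ∈ K := by
    intro g q
    rw [← QuotientGroup.eq, hs]
    conv_lhs => rw [← hs q]
    rfl
  let ee : G → Fin (Nat.card (G ⧸ K)) → ZMod 5 := fun g i => (χ ⟨_, hk g (E.symm i)⟩).toAdd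
  let pp : G →* Equiv.Perm (Fin (Nat.card (G ⧸ K))) :=
    (Equiv.permCongrHom E).toMonoidHom.comp (MulAction.toPermHom G (G ⧸ K))
  have hpp : ∀ g i, pp g i = E (g • E.symm i) := fun g i => rfl
  refine ⟨Nat.card (G ⧸ K), ⟨pp, ee, ?_⟩, hodd, ?_, ?_⟩
  · intro g h i
    show (χ ⟨_, hk (g * h) (E.symm i)⟩).toAdd =
      (χ ⟨_, hk g (E.symm (pp h i))⟩).toAdd + (χ ⟨_, hk h (E.symm i)⟩).toAdd
    rw [← toAdd_mul, ← map_mul]
    congr 2
    apply Subtype.ext
    show (s ((g * h) • E.symm i))⁻¹ * (g * h * s (E.symm i)) =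
      (s (g • E.symm (pp h i)))⁻¹ * (g * s (E.symm (pp h i))) *
        ((s (h • E.symm i))⁻¹ * (h * s (E.symm i)))
    rw [hpp, Equiv.symm_apply_apply, mul_smul]
    group
  · ext1 i
    show pp y i = i
    rw [hpp]
    have : y • E.symm i = E.symm i := by
      conv_lhs => rw [← hs (E.symm i)]
      conv_rhs => rw [← hs (E.symm i)]
      show ((y * s (E.symm i) : G) : G ⧸ K) = ((s (E.symm i) : G) : G ⧸ K)
      rw [eq_comm, QuotientGroup.eq]
      have : (s (E.symm i))⁻¹ * (y * s (E.symm i)) = y := by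
        rw [← hc, inv_mul_cancel_left]
      rw [this]
      exact hyK
    rw [this, Equiv.apply_symm_apply]
  · intro i
    show (χ ⟨_, hk y (E.symm i)⟩).toAdd = 1
    have h0 : y • E.symm i = E.symm i := by
      conv_lhs => rw [← hs (E.symm i)]
      conv_rhs => rw [← hs (E.symm i)]
      show ((y * s (E.symm i) : G) : G ⧸ K) = ((s (E.symm i) : G) : G ⧸ K)
      rw [eq_comm, QuotientGroup.eq]
      have : (s (E.symm i))⁻¹ * (y * s (E.symm i)) = y := by
        rw [← hc, inv_mul_cancel_left]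
      rw [this]
      exact hyK
    have h1 : (⟨_, hk y (E.symm i)⟩ : K) = ⟨y, hyK⟩ := by
      apply Subtype.ext
      show (s (y • E.symm i))⁻¹ * (y * s (E.symm i)) = y
      rw [h0, ← hc, inv_mul_cancel_left]
    rw [h1, hχy]
    rfl

end Pool.Agent.Helper60.Alg
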